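import Mathlib
import Pool.Agent.Helper92.PO.Stmts

set_option autoImplicit false

namespace Pool.Agent.Helper92.PO

theorem sta_cnt (w : ℕ) (g : ℕ → Lab) (i r : ℕ) :
    cntU w g (i + 1) r = cntU w g i r + (if i % w = r then one (g i) else 0) := by
  unfold cntU one
  rw [List.range_succ, List.filter_append, List.length_append]
  congr 1
  by_cases h1 : i % w = r
  · by_cases h2 : (g i).1 = 0
    · simp [h1, h2]
    · simp [h1, h2]
  · simp [h1]

theorem sta_mod {w i t : ℕ} (ht : t + 1 < w) : ¬ i % w = (i + 1 + t) % w := by
  intro h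
  have h1 : i ≡ i + (t + 1) [MOD w] := by
    have : i + (t + 1) = i + 1 + t := by omega
    rw [this]
    exact h
  have h2 : 0 ≡ t + 1 [MOD w] := Nat.ModEq.add_left_cancel' i h1
  have h3 : w ∣ t + 1 := (Nat.modEq_zero_iff_dvd).mp h2.symm
  have := Nat.le_of_dvd (by omega) h3
  omega

theorem st_STA : ST_STA := by
  intro w g hw
  obtain ⟨w', rfl⟩ : ∃ w', w = w' + 1 := ⟨w - 1, by omega⟩
  have hhd : ∀ i, hd (stAt (w' + 1) g i).2 =
      (if i < w' + 1 then (0, 0) else g (i - (w' + 1)), cntU (w' + 1) g i (i % (w' + 1))) := by
    intro i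
    unfold hd stAt
    rw [List.range_succ_eq_map, List.map_cons, List.headD_cons]
    simp only [add_zero]
  refine ⟨?_, fun i => ⟨?_, hhd i⟩⟩
  · unfold stAt
    refine Prod.ext ?_ ?_
    · simp
    · change List.map _ _ = List.replicate _ _
      rw [List.eq_replicate_iff]
      refine ⟨by simp, ?_⟩
      intro b hb
      obtain ⟨t, ht, rfl⟩ := List.mem_map.mp hb
      rw [List.mem_range] at ht
      have h1 : 0 + t < w' + 1 := by omega
      rw [if_pos h1]
      rfl
  · unfold nxt
    rw [hhd i]
    unfold stAt
    refine Prod.ext ?_ ?_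
    · change g i = if i + 1 = 0 then (0, 0) else g (i + 1 - 1)
      rw [if_neg (by omega), Nat.add_sub_cancel]
    · change List.tail (List.map _ (List.range (w' + 1))) ++ [_] = List.map _ (List.range (w' + 1))
      rw [List.range_succ_eq_map, List.map_cons, List.tail_cons, ← List.range_succ_eq_map,
        List.range_succ (n := w'), List.map_append, List.map_map]
      congr 1
      · refine List.map_congr_left ?_
        intro t ht
        rw [List.mem_range] at ht
        change ((if i + (t + 1) < w' + 1 then ((0, 0) : Lab) else g (i + (t + 1) - (w' + 1))),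
          cntU (w' + 1) g i ((i + (t + 1)) % (w' + 1))) = _
        have e1 : i + (t + 1) = i + 1 + t := by omega
        rw [e1, sta_cnt, if_neg (sta_mod (by omega)), add_zero]
      · rw [List.map_cons, List.map_nil]
        have e2 : ¬ (i + 1 + w' < w' + 1) := by omega
        have e3 : i + 1 + w' - (w' + 1) = i := by omega
        have e4 : (i + 1 + w') % (w' + 1) = i % (w' + 1) := by
          have : i + 1 + w' = i + (w' + 1) := by omega
          rw [this, Nat.add_mod_right]
        rw [if_neg e2, e3, e4, sta_cnt, if_pos rfl]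

end Pool.Agent.Helper92.PO
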